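import Pool.Agent.Helper15.P.Genus

/-!
# Block PC of Theorem M+: conics
-/

namespace Pool.Agent.Helper15.P

open IntermediateField MvPolynomial Matrix Pool.Agent.Helper47.M Pool.Agent.Helper47.P
open Pool.Agent.Helper15 Pool.Agent.Helper15.GM Pool.Agent.Helper15.Curve Pool.Agent.Helper24.MP

section Example

variable {J S : Type} [Fintype J] [DecidableEq J] [Fintype S] [DecidableEq S]

/-- The coefficients of the example. -/
def exc (s0 s1 s2 : S) : EC J S → ℚ
  | Sum.inl (j, h) => if h = Sum.inr j then 1 else 0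
  | Sum.inr s => (if s = s0 then 1 else 0) + ((if s = s1 then 1 else 0)
      + (if s = s2 then 1 else 0))

variable (s0 s1 s2 : S)

omit [Fintype J] [Fintype S] in
theorem blk_exc : blk (lamc (exc s0 s1 s2 : EC J S → ℚ)) = 1 := by
  ext i j
  simp only [blk, lamc, exc, Matrix.of_apply, Matrix.one_apply, Sum.inr.injEq]
  simp only [eq_comm]

omit [Fintype S] in
theorem kvc_exc (p : Fin 3) (h : HC J) :
    kvc (exc s0 s1 s2 : EC J S → ℚ) p h = if h = Sum.inl p then 1 else 0 := by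
  rcases h with a | j
  · simp [kvc, kv, blk_exc]
  · simp only [kvc, kv, blk_exc, Matrix.adjugate_one, Matrix.one_mulVec]
    simp [lamc, exc]

theorem gc_exc (ix : S → Fin 2 → HC J) (h0 : ix s0 = ![Sum.inl 0, Sum.inl 0])
    (h1 : ix s1 = ![Sum.inl 1, Sum.inl 1]) (h2 : ix s2 = ![Sum.inl 2, Sum.inl 2]) :
    GM.gc ix (exc s0 s1 s2 : EC J S → ℚ) ≠ 0 := by
  have hm : ∀ p q, mc ix (exc s0 s1 s2 : EC J S → ℚ) p q = if p = q then 1 else 0 := by
    intro p q
    have e1 : ∀ x y : HC J → ℚ, mul2 ix (fun s => (exc s0 s1 s2 : EC J S → ℚ) (Sum.inr s)) x y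
        = x (Sum.inl 0) * y (Sum.inl 0) + (x (Sum.inl 1) * y (Sum.inl 1)
          + x (Sum.inl 2) * y (Sum.inl 2)) := by
      intro x y
      simp only [mul2, exc, add_mul, ite_mul, one_mul, zero_mul, Finset.sum_add_distrib,
        Finset.sum_ite_eq', Finset.mem_univ, if_true, h0, h1, h2]
      rfl
    rw [mc, e1]
    simp only [kvc_exc]
    fin_cases p <;> fin_cases q <;> simp
  have hd : detc (exc s0 s1 s2 : EC J S → ℚ) = 1 := by
    rw [detc, blk_exc, Matrix.det_one]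
  have f1 : ((0 : Fin 3) = 1) = False := by simp
  have f2 : ((1 : Fin 3) = 0) = False := by simp
  have f3 : ((0 : Fin 3) = 2) = False := by simp [Fin.ext_iff]
  have f4 : ((2 : Fin 3) = 0) = False := by simp [Fin.ext_iff]
  have f5 : ((1 : Fin 3) = 2) = False := by simp [Fin.ext_iff]
  have f6 : ((2 : Fin 3) = 1) = False := by simp [Fin.ext_iff]
  simp only [GM.gc, qc2, qc1, qc0, hm, hd, f1, f2, f3, f4, f5, f6, if_true, if_false]
  norm_num

end Example

variable {k l : ℕ} {N : Fin k → ℕ} {d : Fin l → Fin k → ℕ}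

/-- Conics: both statements. -/
theorem conic_all (r : Fin k) (hr : N r = l + 1) (i0 : Fin l) (h2 : d i0 r = 2)
    (h1 : ∀ i, i ≠ i0 → d i r = 1) :
    ∃ Δ : MvPolynomial (Tx N d) ℚ, Δ ≠ 0 ∧ ∀ (K : Type) [Field K] [CharZero K]
      (c : Tx N d → K), aeval c Δ ≠ 0 →
      (∀ (F : Type) [Field F] [IsAlgClosed F] [CharZero F]
      (φ : K →+* F) (x : Pt N F), (∀ j, j ≠ r → x j 0 = 1) →
      (∀ Ψ : MvPolynomial {q : Vr N // q.1 ≠ r} K,
        eval₂ φ (fun q => x q.1.1 q.1.2.succ) Ψ = 0 → Ψ = 0) →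
      CU F (sysM (fun m => φ (c m)) x r)) ∧
      ∀ (E : Type) [Field E] [Algebra K E] (x : Pt N E), FullPt K c x →
        ∃ (u y : E) (q : Polynomial (Bf K x {r})), IsQuartic (Bf K x {r}) u y q := by
  classical
  let J := {i : Fin l // i ≠ i0}
  let S := Fin (d i0 r) → Fin (N r + 1)
  have hcard : Fintype.card (HC J) = N r + 1 := by
    have e1 : Fintype.card J = l - 1 := by
      rw [Fintype.card_subtype_compl]
      simp
    have e2 : 1 ≤ l := i0.pos
    rw [Fintype.card_sum, Fintype.card_fin, e1, hr]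
    omega
  obtain ⟨eH, heH⟩ := exists_equiv_zero hcard (Sum.inl 0)
  let ix : S → Fin 2 → HC J := fun s t => eH.symm (s (Fin.cast h2.symm t))
  have hix : Function.Surjective ix := by
    intro w
    refine ⟨fun t => eH (w (Fin.cast h2 t)), ?_⟩
    funext t
    simp [ix]
  obtain ⟨s0, hs0⟩ := hix ![Sum.inl 0, Sum.inl 0]
  obtain ⟨s1, hs1⟩ := hix ![Sum.inl 1, Sum.inl 1]
  obtain ⟨s2, hs2⟩ := hix ![Sum.inl 2, Sum.inl 2]
  let Δ : MvPolynomial (EC J S) ℚ := GM.gc ix X
  have hev : ∀ {A : Type} [CommRing A] [Algebra ℚ A] (c : EC J S → A),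
      aeval c Δ = GM.gc ix c := by
    intro A _ _ c
    have := map_gc (aeval c : MvPolynomial (EC J S) ℚ →ₐ[ℚ] A).toRingHom ix X
    refine this.trans ?_
    congr 1
    funext e
    exact aeval_X _ _
  have hΔ : Δ ≠ 0 := by
    intro h0
    have := hev (exc s0 s1 s2 : EC J S → ℚ)
    rw [h0, map_zero] at this
    exact gc_exc s0 s1 s2 ix hs0 hs1 hs2 this.symm
  let ρ : EC J S → Σ i : Fin l, (Fin (d i r) → Fin (N r + 1)) := fun s => match s with
    | Sum.inl (j, h) => ⟨j.1, fun _ => eH h⟩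
    | Sum.inr s => ⟨i0, s⟩
  have hρ : Function.Injective ρ := by
    rintro (⟨j, h⟩ | s) (⟨j', h'⟩ | s') heq
    · have e1 : j.1 = j'.1 := congrArg Sigma.fst heq
      have e2 : j = j' := Subtype.ext e1
      subst e2
      have e3 := eq_of_heq (Sigma.mk.inj heq).2
      have e4 := congrFun e3 ⟨0, by rw [h1 j.1 j.2]; exact one_pos⟩
      rw [eH.injective e4]
    · exact absurd (congrArg Sigma.fst heq) j.2
    · exact absurd (congrArg Sigma.fst heq).symm j'.2
    · have e3 := eq_of_heq (Sigma.mk.inj heq).2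
      rw [e3]
  -- the conversion of the systems
  have hconv : ∀ {F Ω : Type} [Field F] [Field Ω] (χ : F →+* Ω) (c : Tx N d → F) (x : Pt N F)
      (y : Fin (N r + 1) → Ω), (∀ i, eval₂ χ y (sysM c x r i) = 0) →
      ∀ i, eval₂ χ (fun s => y (eH s)) (sysc ix (cc r ρ c x) i) = 0 := by
    intro F Ω _ _ χ c x y hy
    rw [eval_sysM] at hy
    rw [eval_sysc]
    refine ⟨by rw [heH]; exact hy.1, ?_⟩
    intro i
    rcases i with _ | j
    · rw [← hy.2 i0]
      simp only [eqc, GM.val]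
      apply Finset.sum_congr rfl
      intro s _
      congr 1
      have e1 : ∀ t : Fin 2, y (eH (ix s t)) = y (s (Fin.cast h2.symm t)) := by
        intro t
        simp [ix]
      rw [Finset.prod_congr rfl fun t _ => e1 t]
      exact Fintype.prod_equiv (finCongr h2.symm) _ _ fun t => rfl
    · rw [← hy.2 j.1, sum_one (h1 j.1 j.2)]
      simp only [eqc]
      exact Fintype.sum_equiv eH _ _ fun h => rfl
  obtain ⟨Δ', hΔ', H'⟩ := exists_general r ρ hρ Δ hΔ
  refine ⟨Δ', hΔ', fun K _ _ c hc => ⟨?_, ?_⟩⟩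
  · intro F _ _ _ φ x hx hind
    have hg := H' K c hc F φ x hx hind
    rw [hev] at hg
    exact (cu_conic ix _ hg).of_equiv _ eH fun Ω _ χ y hy => hconv χ _ _ y hy
  · intro E _ _ x hx
    have hcz : CharZero (Bf K x {r}) :=
      charZero_of_injective_algebraMap (algebraMap K (Bf K x {r})).injective
    have hg := H' K c hc (Bf K x {r}) (algebraMap K (Bf K x {r})) (xb K x r)
      (fun j hj => xb_one hx.one j hj) (fun Ψ hΨ => hind_of (hx.ind r) (RingHom.id _) Ψ hΨ)
    rw [hev] at hg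
    have hz := zero_of_fm c x hx.eq hx.one (algebraMap (Bf K x {r}) E) (RingHom.id E)
      (fun m => algebraMap K (Bf K x {r}) (c m)) (xb K x r)
      (fun m => rfl) (fun j hj i => xb_val j hj i)
    have hz' := hconv (algebraMap (Bf K x {r}) E) _ _ _ hz
    rw [eval_sysc] at hz'
    have hr' : Set.range (fun s => (RingHom.id E) (x r (eH s))) = Set.range (x r) :=
      eH.surjective.range_comp (x r)
    refine isQuartic_of_conic (Bf K x {r}) ix _ _ hz'.2 hz'.1 hg ?_ ?_
    · obtain ⟨e, he⟩ := hx.tr r hr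
      exact ⟨eH.symm e, by rw [eH.apply_symm_apply]; exact he⟩
    · rw [hr']
      exact adjoin_xr_top x hx.top r

theorem exists_conic (h : Tc N d) (r : Fin k) (hr : N r = l + 1) (hs : ∑ i, d i r = l + 1) :
    ∃ Δ : MvPolynomial (Tx N d) ℚ, Δ ≠ 0 ∧ ∀ (K : Type) [Field K] [CharZero K] (c : Tx N d → K),
      aeval c Δ ≠ 0 → ∀ (E : Type) [Field E] [Algebra K E] (x : Pt N E), FullPt K c x →
        ∃ (u y : E) (q : Polynomial (Bf K x {r})), IsQuartic (Bf K x {r}) u y q := by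
  obtain ⟨i0, h2, h1⟩ := types1 r (fun i => h.pos i r) hs
  obtain ⟨Δ, hΔ, H⟩ := conic_all (N := N) (d := d) r hr i0 h2 h1
  exact ⟨Δ, hΔ, fun K _ _ c hc => (H K c hc).2⟩

theorem unique_conic (h : Tc N d) (r : Fin k) (hr : N r = l + 1) (hs : ∑ i, d i r = l + 1) :
    ∃ Δ : MvPolynomial (Tx N d) ℚ, Δ ≠ 0 ∧
      ∀ (K : Type) [Field K] [CharZero K] (c : Tx N d → K), aeval c Δ ≠ 0 → Unq K c r := by
  obtain ⟨i0, h2, h1⟩ := types1 r (fun i => h.pos i r) hs
  obtain ⟨Δ, hΔ, H⟩ := conic_all (N := N) (d := d) r hr i0 h2 h1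
  exact ⟨Δ, hΔ, fun K _ _ c hc => unq_of_fibre r c (H K c hc).1⟩

/-- Both types of curves. -/
theorem unique (h : Tc N d) (r : Fin k) (hr : N r = l + 1) :
    ∃ Δ : MvPolynomial (Tx N d) ℚ, Δ ≠ 0 ∧
      ∀ (K : Type) [Field K] [CharZero K] (c : Tx N d → K), aeval c Δ ≠ 0 → Unq K c r := by
  rcases h.cur r hr with hs | hs
  · exact unique_conic h r hr hs
  · obtain ⟨Δ, hΔ, H⟩ := fibre' (N := N) (d := d) r (fun i => h.pos i r) hr hs
    exact ⟨Δ, hΔ, fun K _ _ c hc => unq_of_fibre r c fun F _ _ _ φ x hx hi =>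
      (H K c hc F φ x hx hi).cu⟩

end Pool.Agent.Helper15.P
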