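import Pool.Agent.Helper15.GM.Unique
import Pool.Agent.Helper15.GM.Conic
import Pool.Agent.Helper24.MP.Prim
import Pool.Agent.Helper47.P.Defs

/-!
# Blocks PT and PC of Theorem M+: curves of genus zero and one
-/

namespace Pool.Agent.Helper15.P

open IntermediateField MvPolynomial Matrix Pool.Agent.Helper47.M Pool.Agent.Helper47.P
open Pool.Agent.Helper15 Pool.Agent.Helper15.GM Pool.Agent.Helper15.Curve Pool.Agent.Helper24.MP

variable {k l : ℕ} {N : Fin k → ℕ} {d : Fin l → Fin k → ℕ}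

theorem unique_aux' {K E E' F Ω Ω' : Type} [Field K] [Field E] [Algebra K E] [Field E']
    [Algebra K E'] [Field F] [Field Ω] [Algebra F Ω] [Field Ω'] (c : Tx N d → K) (r : Fin k)
    (x : Pt N E) (x' : Pt N E')
    (hx : ∀ i, Fm (fun e => algebraMap K E (c e)) x i = 0)
    (hx' : ∀ i, Fm (fun e => algebraMap K E' (c e)) x' i = 0)
    (h1 : ∀ j, x j 0 = 1) (h1' : ∀ j, x' j 0 = 1)
    (φ : K →+* F) (xF : Pt N F) (hcl : CU F (sysM (fun m => φ (c m)) xF r))
    (ε : E →+* Ω) (ε' : E' →+* Ω') (ω : F →+* Ω')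
    (hc : ∀ a, algebraMap F Ω (φ a) = ε (algebraMap K E a))
    (hc' : ∀ a, ω (φ a) = ε' (algebraMap K E' a))
    (hF : ∀ j, j ≠ r → ∀ i, algebraMap F Ω (xF j i) = ε (x j i))
    (hF' : ∀ j, j ≠ r → ∀ i, ω (xF j i) = ε' (x' j i))
    (n1 : ∃ e, ε (x r e) ∉ Set.range (algebraMap F Ω))
    (n2 : ∃ e, ε' (x' r e) ∉ Set.range ω)
    (G : MvPolynomial (Vr N) K) (hG : aeval (fun v => x v.1 v.2.succ) G = 0) :
    aeval (fun v => x' v.1 v.2.succ) G = 0 := by
  have z1 := zero_of_fm c x hx h1 (algebraMap F Ω) ε (fun m => φ (c m)) xF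
    (fun m => hc _) hF
  have z2 := zero_of_fm c x' hx' h1' ω ε' (fun m => φ (c m)) xF (fun m => hc' _) hF'
  have h2 := hcl Ω (fun e => ε (x r e)) z1 n1
  obtain ⟨ψ, hψ, hψy⟩ := h2 Ω' ω (fun e => ε' (x' r e)) z2 n2
  classical
  let L := adjoin F (Set.range fun e => ε (x r e))
  let xL : Vr N → L := fun v => if h : v.1 = r then
    (⟨ε (x r (h ▸ v.2.succ)), subset_adjoin _ _ ⟨_, rfl⟩⟩ : L) else
      algebraMap F L (xF v.1 v.2.succ)
  let κ : K →+* L := (algebraMap F L).comp φ
  have e1 : L.val.toRingHom (eval₂ κ xL G) = ε (aeval (fun v => x v.1 v.2.succ) G) := by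
    rw [eval₂_comp_left, aeval_def, eval₂_comp_left]
    have h3 : L.val.toRingHom.comp κ = ε.comp (algebraMap K E) := by
      ext a
      exact hc a
    have h4 : L.val.toRingHom ∘ xL = ε ∘ fun v : Vr N => x v.1 v.2.succ := by
      funext v
      obtain ⟨j, i⟩ := v
      by_cases hj : j = r
      · subst hj
        show L.val.toRingHom (xL ⟨j, i⟩) = _
        simp only [xL, dif_pos]
        rfl
      · show L.val.toRingHom (xL ⟨j, i⟩) = _
        simp only [xL, hj, dif_neg, not_false_iff]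
        exact hF j hj _
    rw [h3, h4]
  have e2 : ψ (eval₂ κ xL G) = ε' (aeval (fun v => x' v.1 v.2.succ) G) := by
    rw [eval₂_comp_left, aeval_def, eval₂_comp_left]
    have h3 : ψ.comp κ = ε'.comp (algebraMap K E') := by
      ext a
      show ψ (algebraMap F L (φ a)) = _
      rw [hψ, hc']
      rfl
    have h4 : ψ ∘ xL = ε' ∘ fun v : Vr N => x' v.1 v.2.succ := by
      funext v
      obtain ⟨j, i⟩ := v
      by_cases hj : j = r
      · subst hj
        simp only [Function.comp_apply, xL, dif_pos]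
        exact hψy _
      · simp only [Function.comp_apply, xL, hj, dif_neg, not_false_iff]
        rw [hψ, hF' j hj]
    rw [h3, h4]
  rw [hG, map_zero] at e1
  have e3 : eval₂ κ xL G = 0 := by
    apply L.val.injective
    rw [map_zero]
    exact e1
  rw [e3, map_zero] at e2
  rw [← map_eq_zero ε']
  exact e2.symm

theorem unique_of_CU {K E E' : Type} [Field K] [CharZero K] [Field E] [Algebra K E] [Field E']
    [Algebra K E'] (c : Tx N d → K) (r : Fin k) (x : Pt N E) (x' : Pt N E')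
    (hx : ∀ i, Fm (fun e => algebraMap K E (c e)) x i = 0)
    (hx' : ∀ i, Fm (fun e => algebraMap K E' (c e)) x' i = 0)
    (h1 : ∀ j, x j 0 = 1) (h1' : ∀ j, x' j 0 = 1)
    (hi : AlgebraicIndependent K fun q : {q : Vr N // q.1 ≠ r} => x q.1.1 q.1.2.succ)
    (hi' : AlgebraicIndependent K fun q : {q : Vr N // q.1 ≠ r} => x' q.1.1 q.1.2.succ)
    (ht : ∃ e, Transcendental (Bf K x {r}) (x r e))
    (ht' : ∃ e, Transcendental (Bf K x' {r}) (x' r e))
    (hcl : CU (algebraicClosure (Bf K x {r}) (AlgebraicClosure E))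
      (sysM (fun m => ((algebraMap (Bf K x {r}) _).comp (algebraMap K (Bf K x {r}))) (c m))
        (fun j i => algebraMap (Bf K x {r}) _ (xb K x r j i)) r))
    (G : MvPolynomial (Vr N) K) (hG : aeval (fun v => x v.1 v.2.succ) G = 0) :
    aeval (fun v => x' v.1 v.2.succ) G = 0 := by
  obtain ⟨θ, hθ⟩ := exists_theta x x' r h1 h1' hi hi'
  -- the homomorphism of the closures
  obtain ⟨ω, hω⟩ : ∃ ω : algebraicClosure (Bf K x {r}) (AlgebraicClosure E) →+*
      AlgebraicClosure E', ∀ b, ω (algebraMap (Bf K x {r}) _ b)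
        = algebraMap E' (AlgebraicClosure E') (algebraMap (Bf K x' {r}) E' (θ b)) := by
    let β : Bf K x {r} →+* AlgebraicClosure E' :=
      ((algebraMap E' (AlgebraicClosure E')).comp (algebraMap (Bf K x' {r}) E')).comp
        (θ : Bf K x {r} →+* Bf K x' {r})
    let _ : Algebra (Bf K x {r}) (AlgebraicClosure E') := β.toAlgebra
    let ω : algebraicClosure (Bf K x {r}) (AlgebraicClosure E) →ₐ[Bf K x {r}]
      AlgebraicClosure E' := IsAlgClosed.lift
    exact ⟨ω.toRingHom, fun b => ω.commutes b⟩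
  obtain ⟨e, he⟩ := ht
  obtain ⟨e', he'⟩ := ht'
  refine unique_aux' c r x x' hx hx' h1 h1'
    ((algebraMap (Bf K x {r}) _).comp (algebraMap K (Bf K x {r}))) _ hcl
    (algebraMap E (AlgebraicClosure E)) (algebraMap E' (AlgebraicClosure E')) ω
    (fun a => rfl) ?_ ?_ ?_ ⟨e, ?_⟩ ⟨e', ?_⟩ G hG
  · intro a
    show ω (algebraMap (Bf K x {r}) _ (algebraMap K (Bf K x {r}) a)) = _
    rw [hω, AlgHom.commutes]
    rfl
  · intro j hj i
    exact congrArg (algebraMap E (AlgebraicClosure E)) (xb_val j hj i)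
  · intro j hj i
    rw [hω, hθ j hj, xb_val j hj]
  · exact notMem_range (algebraMap E (AlgebraicClosure E)) (B := Bf K x {r})
      (algebraMap (algebraicClosure (Bf K x {r}) (AlgebraicClosure E)) (AlgebraicClosure E))
      (RingHom.id _) (fun b => rfl) e he
  · exact notMem_range (algebraMap E' (AlgebraicClosure E')) (B := Bf K x {r}) ω
      (θ : Bf K x {r} →+* Bf K x' {r}) hω e' he'

/-- Uniqueness for general coefficients from the fibre statement. -/
theorem unq_of_fibre (r : Fin k) {K : Type} [Field K] [CharZero K] (c : Tx N d → K)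
    (H : ∀ (F : Type) [Field F] [IsAlgClosed F] [CharZero F]
      (φ : K →+* F) (x : Pt N F), (∀ j, j ≠ r → x j 0 = 1) →
      (∀ Ψ : MvPolynomial {q : Vr N // q.1 ≠ r} K,
        eval₂ φ (fun q => x q.1.1 q.1.2.succ) Ψ = 0 → Ψ = 0) →
      CU F (sysM (fun m => φ (c m)) x r)) : Unq K c r := by
  intro E E' _ _ _ _ x x' hx hx' G hG
  have hcz : CharZero (Bf K x {r}) :=
    charZero_of_injective_algebraMap (algebraMap K (Bf K x {r})).injective
  have hcz' : CharZero (algebraicClosure (Bf K x {r}) (AlgebraicClosure E)) :=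
    charZero_of_injective_algebraMap (algebraMap (Bf K x {r}) _).injective
  have hac : IsAlgClosed (algebraicClosure (Bf K x {r}) (AlgebraicClosure E)) :=
    IsAlgClosure.isAlgClosed (Bf K x {r})
  refine unique_of_CU c r x x' hx.eq hx'.eq hx.one hx'.one hx.ind hx'.ind hx.tr hx'.tr ?_ G hG
  refine H _ ((algebraMap (Bf K x {r}) _).comp (algebraMap K (Bf K x {r}))) _ ?_ ?_
  · intro j hj
    rw [xb_one hx.one j hj, map_one]
  · exact hind_of hx.ind (algebraMap (Bf K x {r}) _)

/-- The types of curves of genus one. -/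
theorem types2 (r : Fin k) (hpos : ∀ i, 0 < d i r) (hs0 : ∑ i, d i r = l + 2) :
    (∃ i0, d i0 r = 3 ∧ ∀ i, i ≠ i0 → d i r = 1) ∨
    (∃ i1 i2, i1 ≠ i2 ∧ d i1 r = 2 ∧ d i2 r = 2 ∧ ∀ i, i ≠ i1 → i ≠ i2 → d i r = 1) := by
  classical
  have hs : ∑ i, (d i r - 1) = 2 := by
    have h1 : ∑ i, (d i r - 1) + ∑ _i : Fin l, 1 = ∑ i, d i r := by
      rw [← Finset.sum_add_distrib]
      apply Finset.sum_congr rfl
      intro i _
      have := hpos i
      omega
    rw [hs0, Finset.sum_const, Finset.card_univ, Fintype.card_fin] at h1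
    simp only [smul_eq_mul, mul_one] at h1
    omega
  have h1 : ∃ i1, 1 ≤ d i1 r - 1 := by
    by_contra hcon
    push Not at hcon
    have h2 : ∑ i, (d i r - 1) = 0 := Finset.sum_eq_zero fun i _ => by
      have := hcon i
      omega
    omega
  obtain ⟨i1, hi1⟩ := h1
  have h2 := Finset.add_sum_erase Finset.univ (fun i => d i r - 1) (Finset.mem_univ i1)
  rw [hs] at h2
  by_cases h3 : d i1 r = 3
  · left
    refine ⟨i1, h3, fun i hi => ?_⟩
    have h4 : ∑ i ∈ Finset.univ.erase i1, (d i r - 1) = 0 := by omega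
    rw [Finset.sum_eq_zero_iff] at h4
    have h5 := h4 i (Finset.mem_erase.mpr ⟨hi, Finset.mem_univ i⟩)
    have := hpos i
    omega
  · right
    have h4 : d i1 r = 2 := by omega
    have h5 : ∑ i ∈ Finset.univ.erase i1, (d i r - 1) = 1 := by omega
    have h6 : ∃ i2 ∈ Finset.univ.erase i1, 1 ≤ d i2 r - 1 := by
      by_contra hcon
      push Not at hcon
      have h7 : ∑ i ∈ Finset.univ.erase i1, (d i r - 1) = 0 := Finset.sum_eq_zero fun i hi => by
        have := hcon i hi
        omega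
      omega
    obtain ⟨i2, hi2, h7⟩ := h6
    have h8 := Finset.add_sum_erase (Finset.univ.erase i1) (fun i => d i r - 1) hi2
    rw [h5] at h8
    refine ⟨i1, i2, (Finset.ne_of_mem_erase hi2).symm, h4, by omega, fun i hi hi' => ?_⟩
    have h9 : ∑ i ∈ (Finset.univ.erase i1).erase i2, (d i r - 1) = 0 := by omega
    rw [Finset.sum_eq_zero_iff] at h9
    have h10 := h9 i (Finset.mem_erase.mpr ⟨hi', Finset.mem_erase.mpr ⟨hi, Finset.mem_univ i⟩⟩)
    have := hpos i
    omega

/-- The types of conics. -/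
theorem types1 (r : Fin k) (hpos : ∀ i, 0 < d i r) (hs0 : ∑ i, d i r = l + 1) :
    ∃ i0, d i0 r = 2 ∧ ∀ i, i ≠ i0 → d i r = 1 := by
  classical
  have hs : ∑ i, (d i r - 1) = 1 := by
    have h1 : ∑ i, (d i r - 1) + ∑ _i : Fin l, 1 = ∑ i, d i r := by
      rw [← Finset.sum_add_distrib]
      apply Finset.sum_congr rfl
      intro i _
      have := hpos i
      omega
    rw [hs0, Finset.sum_const, Finset.card_univ, Fintype.card_fin] at h1
    simp only [smul_eq_mul, mul_one] at h1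
    omega
  have h1 : ∃ i1, 1 ≤ d i1 r - 1 := by
    by_contra hcon
    push Not at hcon
    have h2 : ∑ i, (d i r - 1) = 0 := Finset.sum_eq_zero fun i _ => by
      have := hcon i
      omega
    omega
  obtain ⟨i1, hi1⟩ := h1
  have h2 := Finset.add_sum_erase Finset.univ (fun i => d i r - 1) (Finset.mem_univ i1)
  rw [hs] at h2
  refine ⟨i1, by omega, fun i hi => ?_⟩
  have h4 : ∑ i ∈ Finset.univ.erase i1, (d i r - 1) = 0 := by omega
  rw [Finset.sum_eq_zero_iff] at h4
  have h5 := h4 i (Finset.mem_erase.mpr ⟨hi, Finset.mem_univ i⟩)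
  have := hpos i
  omega

/-- The fibre over the other factors is a curve of genus one. -/
theorem fibre' (r : Fin k) (hpos : ∀ i, 0 < d i r) (hr : N r = l + 1)
    (hs : ∑ i, d i r = l + 2) :
    ∃ Δ : MvPolynomial (Tx N d) ℚ, Δ ≠ 0 ∧ ∀ (K : Type) [Field K] [CharZero K]
      (c : Tx N d → K), aeval c Δ ≠ 0 → ∀ (F : Type) [Field F] [IsAlgClosed F] [CharZero F]
      (φ : K →+* F) (x : Pt N F), (∀ j, j ≠ r → x j 0 = 1) →
      (∀ Ψ : MvPolynomial {q : Vr N // q.1 ≠ r} K,
        eval₂ φ (fun q => x q.1.1 q.1.2.succ) Ψ = 0 → Ψ = 0) →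
      CL F (sysM (fun m => φ (c m)) x r) := by
  rcases types2 r hpos hs with ⟨i0, h3, h1⟩ | ⟨i1, i2, h12, hi1, hi2, h1⟩
  · exact fibre3 r hr i0 h3 h1
  · exact fibre2 r hr i1 i2 h12 hi1 hi2 h1

theorem exists_genus (h : Tc N d) (r : Fin k) (hr : N r = l + 1) (hs : ∑ i, d i r = l + 2) :
    ∃ Δ : MvPolynomial (Tx N d) ℚ, Δ ≠ 0 ∧ ∀ (K : Type) [Field K] [CharZero K] (c : Tx N d → K),
      aeval c Δ ≠ 0 → ∀ (E : Type) [Field E] [Algebra K E] (x : Pt N E), FullPt K c x →
        IsGenusOne (Bf K x {r}) := by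
  obtain ⟨Δ, hΔ, H⟩ := fibre' r (fun i => h.pos i r) hr hs
  refine ⟨Δ, hΔ, ?_⟩
  intro K _ _ c hc E _ _ x hx
  have hcz : CharZero (Bf K x {r}) :=
    charZero_of_injective_algebraMap (algebraMap K (Bf K x {r})).injective
  have hcz' : CharZero (algebraicClosure (Bf K x {r}) (AlgebraicClosure E)) :=
    charZero_of_injective_algebraMap (algebraMap (Bf K x {r}) _).injective
  have hac : IsAlgClosed (algebraicClosure (Bf K x {r}) (AlgebraicClosure E)) :=
    IsAlgClosure.isAlgClosed (Bf K x {r})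
  apply genus_of_CL c x hx r hr
  refine H K c hc _ ((algebraMap (Bf K x {r}) _).comp (algebraMap K (Bf K x {r}))) _ ?_ ?_
  · intro j hj
    rw [xb_one hx.one j hj, map_one]
  · exact hind_of (hx.ind r) (algebraMap (Bf K x {r}) _)

end Pool.Agent.Helper15.P
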